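import Pool.Agent.Lib.MP_eba68f_edge.Final

namespace Pool.Agent.Results.MP_eba68f_pr.ExtremeDirections

open MeasureTheory Pool.Agent.Lib.MP_eba68f_pr Pool.Agent.Lib.MP_eba68f_edge
open scoped NNReal

theorem result : ∃ F : Measure ℝ≥0, IsProbabilityMeasure F ∧
    MemLp (fun t : ℝ≥0 => (t : ℝ)) 2 F ∧ F (Set.Iio 1) = 0 ∧
    ∃ x y : EuclideanSpace ℝ (Fin 2), ‖x‖ = 1 ∧ ‖y‖ = 1 ∧
      (∃ r : ℝ, 0 < r ∧ r • x ∈ Set.extremePoints ℝ {z | mu F z ≤ 1} ∧ ∑ i, |(r • x) i| = 1) ∧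
      (∃ r : ℝ, 0 < r ∧ r • y ∈ Set.extremePoints ℝ {z | mu F z ≤ 1}) ∧
      (∃ C : ℝ≥0, ∀ n : ℕ, passVar F x n ≤ C) ∧
      chi F x = 0 ∧ ((1 / 32 : ℝ) : EReal) ≤ chi F y := by
  obtain ⟨x, a1, a2, a3, a4⟩ := edge_dir
  obtain ⟨y, b1, b2, b3⟩ := curved_dir
  exact ⟨FF, FF_prob, FF_memLp, FF_Iio, x, y, a1, b1, a2, b2, a3, a4, b3⟩

end Pool.Agent.Results.MP_eba68f_pr.ExtremeDirections
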