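import Pool.Agent.Lib.FP95.All

namespace Pool.Agent.Results.MP_eba68f_pr.OneFifth

open MeasureTheory Pool.Agent.Lib.MP_eba68f_pr Pool.Agent.Lib.MP_eba68f_edge
open scoped NNReal

theorem result (F : Measure ℝ≥0) [IsProbabilityMeasure F] (r b a : ℝ≥0) (hr : 0 < r)
    (hF : F (Set.Icc r b) = 1) (ha : 0 < F (Set.Iic a)) (x : EuclideanSpace ℝ (Fin 2))
    (hx : ‖x‖ = 1) (hext : ∃ t : ℝ, 0 < t ∧ t • x ∈ Set.extremePoints ℝ {z | mu F z ≤ 1})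
    (hax : (a : ℝ) * ∑ i, |x i| < mu F x) (ε : ℝ) (hε : 0 < ε) :
    ∃ y : EuclideanSpace ℝ (Fin 2), ‖y‖ = 1 ∧ dist y x < ε ∧
      (∃ t : ℝ, 0 < t ∧ t • y ∈ Set.extremePoints ℝ {z | mu F z ≤ 1}) ∧
      ((1 / 5 : ℝ) : EReal) ≤ chi F y :=
  Pool.Agent.Lib.FP95.st_FIN F r b a hr hF ha x hx hext hax ε hε

end Pool.Agent.Results.MP_eba68f_pr.OneFifth
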