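import Pool.Agent.Lib.SO5.All

namespace Pool.Agent.Results.MP_eba68f_pr.SuperLog

open MeasureTheory ProbabilityTheory Filter Pool.Agent.Lib.MP_eba68f_pr Pool.Agent.Lib.SO4
open scoped NNReal ENNReal

theorem result (F : Measure ℝ≥0) [IsProbabilityMeasure F] (r : ℝ≥0) (hr : F (Set.Iio r) = 0)
    (hs : ∀ s, r < s → 0 < F (Set.Iic s))
    (ha : F {r} < if r = 0 then 1 / 2 else ENNReal.ofReal orientedCrit) :
    ∃ c : ℝ, 0 < c ∧ ∃ N : ℝ, ∀ v : Fin 2 → ℤ, N ≤ |(v 0 : ℝ)| + |(v 1 : ℝ)| →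
      ENNReal.ofReal (Real.exp (c * Real.log (|(v 0 : ℝ)| + |(v 1 : ℝ)|) ^ (1 / 2 : ℝ))) ≤
        evariance (fun τ => passage τ 0 v)
          (Measure.infinitePi fun _ : (lattice 2).edgeSet => F) :=
  Pool.Agent.Lib.SO5.st_FIN F r hr hs (by
    split_ifs at ha with h
    · exact Or.inl ha
    · exact Or.inr ⟨pos_iff_ne_zero.2 h, ha⟩)

end Pool.Agent.Results.MP_eba68f_pr.SuperLog
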