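import Pool.Agent.Lib.T3Q.All

namespace Pool.Agent.Results.MP_eba68f_pr.ThreeDim

open MeasureTheory ProbabilityTheory Filter Pool.Agent.Lib.MP_eba68f_pr
open scoped NNReal ENNReal

theorem result (a m : ℝ≥0) (ha : 0 < a) :
    ∃ p₀ : ℝ≥0∞, 0 < p₀ ∧ ∀ (F : Measure ℝ≥0) [IsProbabilityMeasure F] (r : ℝ≥0),
      MemLp (fun t : ℝ≥0 => (t : ℝ)) 2 F → ∫ t, (t : ℝ) ∂F ≤ m → F (Set.Iio a) ≤ 1 / 1000 →
      F (Set.Iio r) = 0 → (∀ s, r < s → 0 < F (Set.Iic s)) → F {r} < p₀ →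
      ∃ c : ℝ, 0 < c ∧ ∀ᶠ N : ℕ in atTop, ∃ v : Fin 3 → ℤ, (∀ i, |v i| ≤ N) ∧
        ENNReal.ofReal (Real.exp (c * Real.log N ^ (1 / 2 : ℝ))) ≤
          evariance (fun τ => passage τ 0 v)
            (Measure.infinitePi fun _ : (lattice 3).edgeSet => F) :=
  Pool.Agent.Lib.T3Q.st_FIN a m ha

end Pool.Agent.Results.MP_eba68f_pr.ThreeDim
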